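import Mathlib
import Pool.Agent.Lib.MP_b6c7ab_al.Main

/-!
# MP_b6c7ab_al: amalgams of nilpotent groups over abelian groups need not be flawed
-/

namespace Pool.Agent.Results.MP_b6c7ab_al.NotFlawed

open B6c7ab

/-- There are finitely generated nilpotent groups `A`, `B` and an abelian group `C` embedded in
both, such that the amalgamated free product `Γ = A *_C B` is not `GL₄(ℂ)`-flawed: the image of
`Hom(Γ, U(4))/U(4)` is not a strong deformation retract of the character variety
`Hom(Γ, GL₄(ℂ)) // GL₄(ℂ)`; moreover some point of the character variety is not joined by a path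
to any point of that image. -/
theorem result :
    ∃ (A B C : Type) (_ : Group A) (_ : Group B) (_ : CommGroup C)
      (iA : C →* A) (iB : C →* B),
      Group.FG A ∧ Group.FG B ∧ Group.IsNilpotent A ∧ Group.IsNilpotent B ∧
      Function.Injective iA ∧ Function.Injective iB ∧
      ¬ GLFlawed (Amalgam iA iB) 4 ∧
      ∃ c : CharVar (Amalgam iA iB) 4, ∀ p : unitInterval → CharVar (Amalgam iA iB) 4,
        Continuous p → p 0 = c → p 1 ∉ unitaryPart (Amalgam iA iB) 4 := by
  refine ⟨N4, N4, Multiplicative ℤ × Multiplicative ℤ, inferInstance, inferInstance,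
    inferInstance, iA, iB, N4_fg, N4_fg, N4_nilpotent, N4_nilpotent, iA_inj, iB_inj, ?_,
    cls rho0, fun p hp h0 => no_path p hp h0⟩
  rintro ⟨H, hH, h0, h1, -⟩
  exact no_path (fun t => H (cls rho0, t)) (by fun_prop) (h0 _) (h1 _)

end Pool.Agent.Results.MP_b6c7ab_al.NotFlawed
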